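import Pool.Agent.Lib.MP_426a66_co.H54.Super
import Pool.Agent.Lib.MP_426a66_co.H68.Two

/-!
# Weak supersaturation for folded bipartite graphs

Definitions: `Lib/MP_426a66_co/H54/Defs.lean` (a bigraph with sides `A`, `B` is a relation
`E : A → B → Prop`; `Sidorenko E` is Sidorenko's inequality for `E`; `IsGraphOf L E`: the graph `L`
is the bipartite graph of `E`; `WeakSupersaturation k L` is the statement of the problem for the
single graph `L`) and `Lib/MP_426a66_co/H68/Fold.lean` (`IsFolded`, `TwoNearlyComplete`).
-/

set_option autoImplicit false

namespace Pool.Agent.Results.MP_426a66_co.FoldedBigraphs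

open Pool.Agent.Lib.MP_426a66_co

/-- Folded bigraphs, and bigraphs in which two vertices of one side are adjacent to all vertices of
the other side with at most one exception each, have Sidorenko's property, and weak supersaturation
holds for their graphs. -/
theorem result (A B : Type) [Fintype A] [Fintype B] (E : A → B → Prop)
    (h : IsFolded E ∨ TwoNearlyComplete E) :
    Sidorenko E ∧
      ∀ (k : ℕ) (L : SimpleGraph (Fin k)), IsGraphOf L E → WeakSupersaturation k L := by
  have hS : Sidorenko E := h.elim (H68.sidorenko_of_folded E) (H68.sidorenko_of_two E)
  exact ⟨hS, fun _k L hL => H54.weakSupersaturation_of_sidorenko L E hL hS⟩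

end Pool.Agent.Results.MP_426a66_co.FoldedBigraphs
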