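import Pool.Agent.Lib.MP_426a66_co.H54.Super

/-!
# Weak supersaturation for graphs built by reflective extensions

Definitions (`Lib/MP_426a66_co/H54/Defs.lean`): a bigraph with sides `A`, `B` is a relation
`E : A → B → Prop`; `Sidorenko E` is Sidorenko's inequality for `E`; `CutInvolution`, `Reflective`,
`extend`, `Enough` describe the operation of adding new vertices attached to a set of vertices which
are exchanged by cut involutions; `Built` is the class generated by these operations;
`WeakSupersaturation k L` is the statement of the problem for the single graph `L`.
-/

set_option autoImplicit false

namespace Pool.Agent.Results.MP_426a66_co.ReflectiveExtensions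

open Pool.Agent.Lib.MP_426a66_co

/-- Every bigraph of the class `Built` has Sidorenko's property, and weak supersaturation holds for
its graph. -/
theorem result (A B : Type) [Fintype A] [Fintype B] (E : A → B → Prop) (h : Built A B E) :
    Sidorenko E ∧
      ∀ (k : ℕ) (L : SimpleGraph (Fin k)), IsGraphOf L E → WeakSupersaturation k L :=
  ⟨H54.built_sidorenko E h, fun _k L hL =>
    H54.weakSupersaturation_of_sidorenko L E hL (H54.built_sidorenko E h)⟩

end Pool.Agent.Results.MP_426a66_co.ReflectiveExtensions
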